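import Pool.Agent.helper54.Sch.AL3

/-!
Module JF of the Schneider project: the variation of the volume functional.
-/

open scoped Pointwise ContDiff
open MeasureTheory Set Filter Topology

namespace Pool.Agent.helper41.Sch

/-- The domain of the conjugate. -/
def JF_dom (f : P → ℝ) : Set P := {p | BddAbove (range (fun y => dot p y - f y))}

theorem JF_dom_convex (f : P → ℝ) : Convex ℝ (JF_dom f) := by
  rintro p ⟨M, hM⟩ q ⟨N, hN⟩ a b ha hb hab
  refine ⟨a * M + b * N, ?_⟩
  rintro _ ⟨y, rfl⟩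
  have h1 : dot p y - f y ≤ M := hM ⟨y, rfl⟩
  have h2 : dot q y - f y ≤ N := hN ⟨y, rfl⟩
  have h3 : dot (a • p + b • q) y = a * dot p y + b * dot q y := by
    simp [dot]; ring
  have h4 : f y = a * f y + b * f y := by rw [← add_mul, hab, one_mul]
  have h5 := mul_le_mul_of_nonneg_left h1 ha
  have h6 := mul_le_mul_of_nonneg_left h2 hb
  simp only
  rw [h3]
  linarith

theorem JF_coercive {f : P → ℝ} {p : P} (hp : p ∈ interior (JF_dom f)) :
    ∃ δ > 0, ∃ C, ∀ y, dot p y - f y ≤ C - δ * ‖y‖ := by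
  rw [mem_interior_iff_mem_nhds, Metric.mem_nhds_iff] at hp
  obtain ⟨δ, hδ, hball⟩ := hp
  have key : ∀ e : P, ‖e‖ ≤ δ / 2 → ∃ M, ∀ y, dot p y + dot e y - f y ≤ M := by
    intro e he
    have h1 : p + e ∈ JF_dom f := by
      apply hball
      rw [Metric.mem_ball, dist_eq_norm]
      simp only [add_sub_cancel_left]
      linarith
    obtain ⟨M, hM⟩ := h1
    refine ⟨M, fun y => ?_⟩
    have h2 : dot (p + e) y - f y ≤ M := hM ⟨y, rfl⟩
    have h3 : dot (p + e) y = dot p y + dot e y := by simp [dot]; ring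
    linarith
  have hδ2 : 0 < δ / 2 := by linarith
  obtain ⟨M1, h1⟩ := key (δ / 2, 0) (by
    rw [Prod.norm_def]; simp [hδ2.le, abs_of_pos hδ])
  obtain ⟨M2, h2⟩ := key (-(δ / 2), 0) (by
    rw [Prod.norm_def]; simp [hδ2.le, abs_of_pos hδ])
  obtain ⟨M3, h3⟩ := key (0, δ / 2) (by
    rw [Prod.norm_def]; simp [hδ2.le, abs_of_pos hδ])
  obtain ⟨M4, h4⟩ := key (0, -(δ / 2)) (by
    rw [Prod.norm_def]; simp [hδ2.le, abs_of_pos hδ])
  refine ⟨δ / 2, hδ2, |M1| + |M2| + |M3| + |M4|, fun y => ?_⟩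
  have a1 := h1 y
  have a2 := h2 y
  have a3 := h3 y
  have a4 := h4 y
  simp only [dot] at a1 a2 a3 a4 ⊢
  have e1 := le_abs_self M1
  have e2 := le_abs_self M2
  have e3 := le_abs_self M3
  have e4 := le_abs_self M4
  have f1 := abs_nonneg M1
  have f2 := abs_nonneg M2
  have f3 := abs_nonneg M3
  have f4 := abs_nonneg M4
  rw [Prod.norm_def]
  rcases max_choice ‖y.1‖ ‖y.2‖ with h | h <;> rw [h, Real.norm_eq_abs]
  · rcases abs_choice y.1 with h' | h' <;> rw [h'] <;> nlinarith
  · rcases abs_choice y.2 with h' | h' <;> rw [h'] <;> nlinarith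

theorem JF_exists_argmin {f : P → ℝ} (hf : Continuous f) {p : P} {δ C : ℝ} (hδ : 0 < δ)
    (h : ∀ y, dot p y - f y ≤ C - δ * ‖y‖) : ∃ y, IsArgmin f p y := by
  have hc : Continuous (fun z : P => f z - dot p z) := by
    unfold dot
    fun_prop
  have hlim : Tendsto (fun z : P => f z - dot p z) (cocompact P) atTop := by
    have h1 : Tendsto (fun z : P => δ * ‖z‖ - C) (cocompact P) atTop := by
      apply tendsto_atTop_add_const_right
      exact (tendsto_norm_cocompact_atTop).const_mul_atTop hδ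
    refine tendsto_atTop_mono (fun z => ?_) h1
    have := h z
    linarith
  obtain ⟨y, hy⟩ := hc.exists_forall_le hlim
  exact ⟨y, hy⟩

theorem JF_conj_eq {f : P → ℝ} {p y : P} (h : IsArgmin f p y) : conj f p = dot p y - f y := by
  apply le_antisymm
  · exact ciSup_le fun z => by have := h z; linarith
  · exact le_ciSup (f := fun z => dot p z - f z)
      ⟨dot p y - f y, by rintro _ ⟨z, rfl⟩; have := h z; simp only; linarith⟩ y

theorem JF_sel_eq {φ f : P → ℝ} {p y : P} (h : IsArgmin f p y)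
    (hu : ∀ y y', IsArgmin f p y → IsArgmin f p y' → y = y') : sel φ f p = φ y := by
  have h1 : {z | IsArgmin f p z} = {y} := by
    ext z
    simp only [mem_ofPred_eq, mem_singleton_iff]
    exact ⟨fun hz => hu z y hz h, fun hz => hz ▸ h⟩
  rw [sel, h1, image_singleton, csSup_singleton]

theorem JF_conj_measurable {f : P → ℝ} (hf : Continuous f) : Measurable (conj f) := by
  have h1 : conj f = fun p => ⨆ s : range (TopologicalSpace.denseSeq P),
      (dot p s - f s) := by
    funext p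
    have hc : Continuous (fun z : P => dot p z - f z) := by
      unfold dot
      fun_prop
    exact ((TopologicalSpace.denseRange_denseSeq P).ciSup' hc).symm
  rw [h1]
  have : Countable (range (TopologicalSpace.denseSeq P)) := by
    exact (countable_range _).to_subtype
  apply Measurable.iSup
  intro s
  unfold dot
  fun_prop

/-- The path from `f` to `f + φ`. -/
def JF_G (f φ : P → ℝ) (t : ℝ) (x : P) : ℝ := f x + t * φ x

theorem JF_G_LC {φ f : P → ℝ} (hf : LC f) (hf' : LC (fun x => f x + φ x)) {t : ℝ} (h0 : 0 ≤ t)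
    (h1 : t ≤ 1) : LC (JF_G f φ t) := by
  have h2 : JF_G f φ t = fun x => (1 - t) * f x + t * (f x + φ x) := by
    funext x
    simp only [JF_G]
    ring
  rw [h2]
  obtain ⟨hc, K, hK⟩ := hf
  obtain ⟨hc', K', hK'⟩ := hf'
  refine ⟨?_, ?_⟩
  · have a1 := hc.smul (sub_nonneg.2 h1)
    have a2 := hc'.smul h0
    exact a1.add a2
  · exact ⟨_, ((lipschitzWith_smul (1 - t)).comp hK).add ((lipschitzWith_smul t).comp hK')⟩

theorem JF_step {φ f : P → ℝ} (hφ : Test φ) (hf : LC f)
    (hf' : LC (fun x => f x + φ x)) {t t' : ℝ} (h0 : 0 ≤ t) (htt' : t ≤ t') (h1 : t' ≤ 1) :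
    (∀ᵐ p, (t' - t) * sel φ (JF_G f φ t') p ≤ conj (JF_G f φ t) p - conj (JF_G f φ t') p) ∧
    (∀ᵐ p, conj (JF_G f φ t) p - conj (JF_G f φ t') p ≤ (t' - t) * sel φ (JF_G f φ t) p) := by
  have hfc : Continuous f := hf.2.choose_spec.continuous
  have hφc : Continuous φ := hφ.1.1.continuous
  obtain ⟨M, hM⟩ : ∃ M, ∀ x, φ x ≤ M := by
    obtain ⟨M, hM⟩ := (hφ.1.2.isCompact_range hφc).bddAbove
    exact ⟨M, fun x => hM ⟨x, rfl⟩⟩
  have hfr : ∀ᵐ p : P, p ∉ frontier (JF_dom f) := by
    rw [ae_iff]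
    simp only [not_not]
    exact (JF_dom_convex f).addHaar_frontier volume
  have hu := ae_argmin_unique (JF_G_LC hf hf' h0 (htt'.trans h1))
  have hu' := ae_argmin_unique (JF_G_LC hf hf' (h0.trans htt') h1)
  have hG0 : ∀ s, 0 ≤ s → ∀ x, f x ≤ JF_G f φ s x := by
    intro s hs x
    have := mul_nonneg hs (hφ.2 x)
    simp only [JF_G]
    linarith
  have hGM : ∀ s, 0 ≤ s → ∀ x, JF_G f φ s x ≤ f x + s * M := by
    intro s hs x
    have := mul_le_mul_of_nonneg_left (hM x) hs
    simp only [JF_G]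
    linarith
  have hGc : ∀ s, Continuous (JF_G f φ s) := by
    intro s
    unfold JF_G
    fun_prop
  have main : ∀ᵐ p : P, (t' - t) * sel φ (JF_G f φ t') p ≤
      conj (JF_G f φ t) p - conj (JF_G f φ t') p ∧
      conj (JF_G f φ t) p - conj (JF_G f φ t') p ≤ (t' - t) * sel φ (JF_G f φ t) p := by
    filter_upwards [hfr, hu, hu'] with p hp hup hup'
    by_cases hd : p ∈ JF_dom f
    · have hint : p ∈ interior (JF_dom f) := by
        by_contra hni
        exact hp ⟨subset_closure hd, hni⟩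
      obtain ⟨δ, hδ, C, hC⟩ := JF_coercive hint
      have hex : ∀ s, 0 ≤ s → ∃ y, IsArgmin (JF_G f φ s) p y := by
        intro s hs
        refine JF_exists_argmin (hGc s) hδ (C := C) fun y => ?_
        have := hG0 s hs y
        have := hC y
        linarith
      obtain ⟨y, hy⟩ := hex t h0
      obtain ⟨y', hy'⟩ := hex t' (h0.trans htt')
      rw [JF_conj_eq hy, JF_conj_eq hy', JF_sel_eq hy hup, JF_sel_eq hy' hup']
      have e1 := hy y'
      have e2 := hy' y
      simp only [JF_G] at e1 e2 ⊢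
      constructor <;> linarith
    · have hnd : ∀ s, 0 ≤ s → ¬ BddAbove (range (fun y => dot p y - JF_G f φ s y)) := by
        rintro s hs ⟨N, hN⟩
        apply hd
        refine ⟨N + s * M, ?_⟩
        rintro _ ⟨y, rfl⟩
        have a1 : dot p y - JF_G f φ s y ≤ N := hN ⟨y, rfl⟩
        have a2 := hGM s hs y
        simp only
        linarith
      have hconj : ∀ s, 0 ≤ s → conj (JF_G f φ s) p = 0 := fun s hs =>
        Real.iSup_of_not_bddAbove (hnd s hs)
      have hsel : ∀ s, 0 ≤ s → sel φ (JF_G f φ s) p = 0 := by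
        intro s hs
        have : {z | IsArgmin (JF_G f φ s) p z} = ∅ := by
          ext z
          simp only [mem_ofPred_eq, mem_empty_iff_false, iff_false]
          intro hz
          apply hnd s hs
          refine ⟨dot p z - JF_G f φ s z, ?_⟩
          rintro _ ⟨w, rfl⟩
          have := hz w
          simp only
          linarith
        rw [sel, this, image_empty, Real.sSup_empty]
      rw [hconj t h0, hconj t' (h0.trans htt'), hsel t h0, hsel t' (h0.trans htt')]
      simp
  exact ⟨main.mono fun p hp => hp.1, main.mono fun p hp => hp.2⟩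

theorem JF_integrable {φ f : P → ℝ} (hφ : Test φ) (hf : LC f)
    (hf' : LC (fun x => f x + φ x)) {t t' : ℝ} (h0 : 0 ≤ t) (htt' : t ≤ t') (h1 : t' ≤ 1) :
    Integrable (fun p => conj (JF_G f φ t) p - conj (JF_G f φ t') p) := by
  have hfc : Continuous f := hf.2.choose_spec.continuous
  have hφc : Continuous φ := hφ.1.1.continuous
  have hGc : ∀ s, Continuous (JF_G f φ s) := by
    intro s
    unfold JF_G
    fun_prop
  have hs := (sel_integrable hφ.1 (JF_G_LC hf hf' h0 (htt'.trans h1))).const_mul (t' - t)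
  have hs' := (sel_integrable hφ.1 (JF_G_LC hf hf' (h0.trans htt') h1)).const_mul (t' - t)
  obtain ⟨a1, a2⟩ := JF_step hφ hf hf' h0 htt' h1
  refine (hs.abs.add hs'.abs).mono'
    ((JF_conj_measurable (hGc t)).sub (JF_conj_measurable (hGc t'))).aestronglyMeasurable ?_
  filter_upwards [a1, a2] with p b1 b2
  rw [Real.norm_eq_abs]
  simp only [Pi.add_apply]
  have c1 := neg_abs_le ((t' - t) * sel φ (JF_G f φ t') p)
  have c2 := le_abs_self ((t' - t) * sel φ (JF_G f φ t) p)
  have c3 := abs_nonneg ((t' - t) * sel φ (JF_G f φ t') p)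
  have c4 := abs_nonneg ((t' - t) * sel φ (JF_G f φ t) p)
  rw [abs_le]
  constructor <;> linarith

theorem JF_quad {φ f : P → ℝ} (hφ : Test φ) (hf : LC f)
    (hf' : LC (fun x => f x + φ x)) {t : ℝ} (h0 : 0 ≤ t) (h1 : t ≤ 1) :
    ∫ p, sel φ (JF_G f φ t) p = B φ f f + 2 * t * B φ f φ + t ^ 2 * B φ φ φ := by
  rw [alexandrov hφ.1 (JF_G_LC hf hf' h0 h1)]
  have hφL : Lip φ := by
    obtain ⟨K, hK⟩ := hf.2
    obtain ⟨K', hK'⟩ := hf'.2
    have : φ = fun x => (f x + φ x) - f x := by funext x; ring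
    rw [this]
    exact ⟨_, hK'.sub hK⟩
  have hfL : Lip f := hf.2
  have htL : Lip (fun x => t * φ x) := by
    obtain ⟨K, hK⟩ := hφL
    exact ⟨_, (lipschitzWith_smul t).comp hK⟩
  have hGL : Lip (JF_G f φ t) := (JF_G_LC hf hf' h0 h1).2
  have e1 : ∀ g, Lip g → B φ (JF_G f φ t) g = B φ f g + t * B φ φ g := by
    intro g hg
    have := B_add_left hφ.1 hfL htL hg
    rw [B_smul_left hφ.1 hφL hg] at this
    exact this
  rw [e1 _ hGL, B_symm φ f, B_symm φ φ, e1 _ hfL, e1 _ hφL, B_symm φ φ f]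
  ring

theorem integral_conj_sub {φ f : P → ℝ} (hφ : Test φ) (hf : LC f)
    (hf' : LC (fun x => f x + φ x)) :
    ∫ p, (conj f p - conj (fun x => f x + φ x) p) = B φ f f + B φ f φ + (1 / 3) * B φ φ φ := by
  set a := B φ f f
  set b := B φ f φ
  set c := B φ φ φ
  -- the variation between two times
  have hstep : ∀ t t', 0 ≤ t → t ≤ t' → t' ≤ 1 →
      |(∫ p, (conj (JF_G f φ t) p - conj (JF_G f φ t') p)) -
        ((a * t' + b * t' ^ 2 + c * t' ^ 3 / 3) - (a * t + b * t ^ 2 + c * t ^ 3 / 3))| ≤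
        4 * (|b| + |c|) * (t' - t) ^ 2 := by
    intro t t' h0 htt' h1
    obtain ⟨a1, a2⟩ := JF_step hφ hf hf' h0 htt' h1
    have hi := JF_integrable hφ hf hf' h0 htt' h1
    have hs := (sel_integrable hφ.1 (JF_G_LC hf hf' h0 (htt'.trans h1))).const_mul (t' - t)
    have hs' := (sel_integrable hφ.1 (JF_G_LC hf hf' (h0.trans htt') h1)).const_mul (t' - t)
    have b1 := integral_mono_ae hs' hi a1
    have b2 := integral_mono_ae hi hs a2
    rw [integral_const_mul, JF_quad hφ hf hf' (h0.trans htt') h1] at b1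
    rw [integral_const_mul, JF_quad hφ hf hf' h0 (htt'.trans h1)] at b2
    change (t' - t) * (a + 2 * t' * b + t' ^ 2 * c) ≤ _ at b1
    change _ ≤ (t' - t) * (a + 2 * t * b + t ^ 2 * c) at b2
    have hx1 : |b| * (t' - t) ^ 2 ≥ b * (t' - t) ^ 2 :=
      mul_le_mul_of_nonneg_right (le_abs_self b) (sq_nonneg _)
    have hx2 : |b| * (t' - t) ^ 2 ≥ -b * (t' - t) ^ 2 :=
      mul_le_mul_of_nonneg_right (neg_le_abs b) (sq_nonneg _)
    have hx3 : |c| * (t' - t) ^ 2 ≥ 0 := by positivity
    have hx4 : |b| * (t' - t) ^ 2 ≥ 0 := by positivity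
    have hy : ∀ s, 0 ≤ s → s ≤ 3 → |c * (t' - t) ^ 2 * (s / 3)| ≤ |c| * (t' - t) ^ 2 := by
      intro s hs0 hs3
      rw [abs_mul, abs_mul, abs_of_nonneg (sq_nonneg (t' - t)), abs_of_nonneg (by positivity : 0 ≤ s / 3)]
      have : s / 3 ≤ 1 := by linarith
      nlinarith
    have hy1 := abs_le.1 (hy (2 * t' + t) (by linarith) (by linarith))
    have hy2 := abs_le.1 (hy (t' + 2 * t) (by linarith) (by linarith))
    rw [abs_le]
    constructor
    · nlinarith
    · nlinarith
  -- summation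
  have hsum : ∀ n : ℕ, 0 < n → |(∫ p, (conj (JF_G f φ 0) p - conj (JF_G f φ 1) p)) -
      (a + b + c / 3)| ≤ 4 * (|b| + |c|) / n := by
    intro n hn
    have hn' : (0 : ℝ) < n := by exact_mod_cast hn
    have key : ∀ m : ℕ, m ≤ n → |(∫ p, (conj (JF_G f φ 0) p - conj (JF_G f φ (m / n)) p)) -
        (a * (m / n) + b * (m / n) ^ 2 + c * (m / n) ^ 3 / 3)| ≤
        m * (4 * (|b| + |c|) * (1 / n) ^ 2) := by
      intro m
      induction m with
      | zero => intro _; simp
      | succ m ih =>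
        intro hm
        have hm1 : (m : ℝ) / n ≤ 1 := by
          rw [div_le_one hn']; exact_mod_cast (Nat.le_of_succ_le hm)
        have hm0 : 0 ≤ (m : ℝ) / n := by positivity
        have hm2 : ((m + 1 : ℕ) : ℝ) / n ≤ 1 := by
          rw [div_le_one hn']; exact_mod_cast hm
        have hm3 : ((m + 1 : ℕ) : ℝ) / n - (m : ℝ) / n = 1 / n := by
          push_cast; ring
        have hm4 : (m : ℝ) / n ≤ ((m + 1 : ℕ) : ℝ) / n := by
          have : (0 : ℝ) < 1 / n := by positivity
          linarith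
        have h1 := ih (Nat.le_of_succ_le hm)
        have h2 := hstep _ _ hm0 hm4 hm2
        rw [hm3] at h2
        have i1 := JF_integrable hφ hf hf' le_rfl hm0 hm1
        have i2 := JF_integrable hφ hf hf' hm0 hm4 hm2
        have h3 : (∫ p, (conj (JF_G f φ 0) p - conj (JF_G f φ ((m + 1 : ℕ) / n)) p)) =
            (∫ p, (conj (JF_G f φ 0) p - conj (JF_G f φ (m / n)) p)) +
            ∫ p, (conj (JF_G f φ (m / n)) p - conj (JF_G f φ ((m + 1 : ℕ) / n)) p) := by
          rw [← integral_add i1 i2]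
          apply integral_congr_ae
          filter_upwards with p
          ring
        rw [h3]
        rw [abs_le] at h1 h2 ⊢
        push_cast at h1 h2 ⊢
        constructor <;> nlinarith [h1.1, h1.2, h2.1, h2.2]
    have h4 := key n le_rfl
    rw [div_self hn'.ne'] at h4
    have h5 : (n : ℝ) * (4 * (|b| + |c|) * (1 / n) ^ 2) = 4 * (|b| + |c|) / n := by
      field_simp
    rw [h5] at h4
    simpa using h4
  have h0 : conj (JF_G f φ 0) = conj f := by
    congr 1
    funext x
    simp [JF_G]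
  have h1 : conj (JF_G f φ 1) = conj (fun x => f x + φ x) := by
    congr 1
    funext x
    simp [JF_G]
  rw [h0, h1] at hsum
  have hlim : Tendsto (fun n : ℕ => 4 * (|b| + |c|) / (n : ℝ)) atTop (𝓝 0) :=
    tendsto_const_div_atTop_nhds_zero_nat _
  have h6 : |(∫ p, (conj f p - conj (fun x => f x + φ x) p)) - (a + b + c / 3)| ≤ 0 := by
    refine ge_of_tendsto hlim ?_
    filter_upwards [eventually_gt_atTop 0] with n hn
    exact hsum n hn
  have h7 := abs_eq_zero.1 (le_antisymm h6 (abs_nonneg _))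
  linarith

end Pool.Agent.helper41.Sch
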