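import Pool.Agent.helper41.Sch.AL2
import Pool.Agent.helper61.Sch.AL1
import Pool.Agent.helper61.Sch.MO
import Pool.Agent.helper95.Sch.SM

/-!
Module AL3 of the Schneider project: Alexandrov's formula for convex Lipschitz functions.
-/

open scoped Pointwise ContDiff
open MeasureTheory Set Filter Topology

namespace Pool.Agent.helper41.Sch

/-! ### Partial derivatives of smooth functions -/

theorem AL3_d1_eq {f : P → ℝ} (hf : Differentiable ℝ f) :
    d1 f = fun x => fderiv ℝ f x ((1 : ℝ), (0 : ℝ)) := by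
  funext x
  exact (hf x).lineDeriv_eq_fderiv

theorem AL3_d2_eq {f : P → ℝ} (hf : Differentiable ℝ f) :
    d2 f = fun x => fderiv ℝ f x ((0 : ℝ), (1 : ℝ)) := by
  funext x
  exact (hf x).lineDeriv_eq_fderiv

theorem AL3_smooth_diff {f : P → ℝ} (hf : ContDiff ℝ ∞ f) : Differentiable ℝ f :=
  hf.differentiable (by simp)

theorem AL3_smooth_d1 {f : P → ℝ} (hf : ContDiff ℝ ∞ f) : ContDiff ℝ ∞ (d1 f) := by
  rw [AL3_d1_eq (AL3_smooth_diff hf)]
  exact (hf.fderiv_right (m := ∞) (by simp)).clm_apply contDiff_const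

theorem AL3_smooth_d2 {f : P → ℝ} (hf : ContDiff ℝ ∞ f) : ContDiff ℝ ∞ (d2 f) := by
  rw [AL3_d2_eq (AL3_smooth_diff hf)]
  exact (hf.fderiv_right (m := ∞) (by simp)).clm_apply contDiff_const

theorem AL3_d1_add {f g : P → ℝ} (hf : Differentiable ℝ f) (hg : Differentiable ℝ g) :
    d1 (fun x => f x + g x) = fun x => d1 f x + d1 g x := by
  have h := AL3_d1_eq (hf.add hg)
  rw [AL3_d1_eq hf, AL3_d1_eq hg]
  refine h.trans ?_
  funext x
  rw [fderiv_add (hf x) (hg x)]
  rfl

theorem AL3_d2_add {f g : P → ℝ} (hf : Differentiable ℝ f) (hg : Differentiable ℝ g) :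
    d2 (fun x => f x + g x) = fun x => d2 f x + d2 g x := by
  have h := AL3_d2_eq (hf.add hg)
  rw [AL3_d2_eq hf, AL3_d2_eq hg]
  refine h.trans ?_
  funext x
  rw [fderiv_add (hf x) (hg x)]
  rfl

theorem AL3_q1 (c : ℝ) : d1 (fun y : P => c * (y.1 ^ 2 + y.2 ^ 2)) = fun y => 2 * c * y.1 := by
  funext x
  have h : HasDerivAt (fun t : ℝ => c * ((x.1 + t * 1) ^ 2 + (x.2 + t * 0) ^ 2))
      (c * (2 * (x.1 + 0 * 1) ^ 1 * (1 * 1) + 2 * (x.2 + 0 * 0) ^ 1 * (1 * 0))) 0 := by
    have h1 : HasDerivAt (fun t : ℝ => x.1 + t * 1) (1 * 1) 0 :=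
      ((hasDerivAt_id (0 : ℝ)).mul_const 1).const_add x.1
    have h2 : HasDerivAt (fun t : ℝ => x.2 + t * 0) (1 * 0) 0 :=
      ((hasDerivAt_id (0 : ℝ)).mul_const 0).const_add x.2
    simpa using ((h1.pow 2).add (h2.pow 2)).const_mul c
  have h' := h.deriv
  unfold d1 lineDeriv
  simp only [Prod.fst_add, Prod.snd_add, Prod.smul_fst, Prod.smul_snd, smul_eq_mul]
  rw [h']
  ring

theorem AL3_q2 (c : ℝ) : d2 (fun y : P => c * (y.1 ^ 2 + y.2 ^ 2)) = fun y => 2 * c * y.2 := by
  funext x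
  have h : HasDerivAt (fun t : ℝ => c * ((x.1 + t * 0) ^ 2 + (x.2 + t * 1) ^ 2))
      (c * (2 * (x.1 + 0 * 0) ^ 1 * (1 * 0) + 2 * (x.2 + 0 * 1) ^ 1 * (1 * 1))) 0 := by
    have h1 : HasDerivAt (fun t : ℝ => x.1 + t * 0) (1 * 0) 0 :=
      ((hasDerivAt_id (0 : ℝ)).mul_const 0).const_add x.1
    have h2 : HasDerivAt (fun t : ℝ => x.2 + t * 1) (1 * 1) 0 :=
      ((hasDerivAt_id (0 : ℝ)).mul_const 1).const_add x.2
    simpa using ((h1.pow 2).add (h2.pow 2)).const_mul c
  have h' := h.deriv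
  unfold d2 lineDeriv
  simp only [Prod.fst_add, Prod.snd_add, Prod.smul_fst, Prod.smul_snd, smul_eq_mul]
  rw [h']
  ring

theorem AL3_q11 (c : ℝ) : d1 (fun y : P => c * y.1) = fun _ => c := by
  funext x
  have h : HasDerivAt (fun t : ℝ => c * (x.1 + t * 1)) (c * (1 * 1)) 0 :=
    (((hasDerivAt_id (0 : ℝ)).mul_const 1).const_add x.1).const_mul c
  have h' := h.deriv
  unfold d1 lineDeriv
  simp only [Prod.fst_add, Prod.smul_fst, smul_eq_mul]
  rw [h']
  ring

theorem AL3_q22 (c : ℝ) : d2 (fun y : P => c * y.2) = fun _ => c := by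
  funext x
  have h : HasDerivAt (fun t : ℝ => c * (x.2 + t * 1)) (c * (1 * 1)) 0 :=
    (((hasDerivAt_id (0 : ℝ)).mul_const 1).const_add x.2).const_mul c
  have h' := h.deriv
  unfold d2 lineDeriv
  simp only [Prod.snd_add, Prod.smul_snd, smul_eq_mul]
  rw [h']
  ring

theorem AL3_q12 (c : ℝ) : d1 (fun y : P => c * y.2) = fun _ => 0 := by
  funext x
  have h : HasDerivAt (fun t : ℝ => c * (x.2 + t * 0)) (c * (1 * 0)) 0 :=
    (((hasDerivAt_id (0 : ℝ)).mul_const 0).const_add x.2).const_mul c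
  have h' := h.deriv
  unfold d1 lineDeriv
  simp only [Prod.snd_add, Prod.smul_snd, smul_eq_mul]
  rw [h']
  ring

/-! ### The regularization -/

/-- The constant of the regularization. -/
noncomputable def AL3_c (k : ℕ) : ℝ := 1 / (2 * ((k : ℝ) + 1))

/-- The regularization. -/
noncomputable def AL3_h (k : ℕ) (h : P → ℝ) (y : P) : ℝ :=
  moll k h y + AL3_c k * (y.1 ^ 2 + y.2 ^ 2)

theorem AL3_c_pos (k : ℕ) : 0 < AL3_c k := by
  unfold AL3_c
  positivity

theorem AL3_c_le (k : ℕ) : AL3_c k ≤ 1 / 2 := by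
  unfold AL3_c
  apply one_div_le_one_div_of_le (by norm_num)
  have : (0 : ℝ) ≤ k := Nat.cast_nonneg k
  linarith

theorem AL3_c_tendsto : Tendsto AL3_c atTop (𝓝 0) := by
  have h : Tendsto (fun k : ℕ => (1 / 2) * (1 / ((k : ℝ) + 1))) atTop (𝓝 ((1 / 2) * 0)) :=
    (tendsto_one_div_add_atTop_nhds_zero_nat (𝕜 := ℝ)).const_mul _
  rw [mul_zero] at h
  refine h.congr fun k => ?_
  unfold AL3_c
  field_simp

theorem AL3_h_smooth (k : ℕ) {h : P → ℝ} (hh : LC h) : ContDiff ℝ ∞ (AL3_h k h) := by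
  unfold AL3_h
  refine (moll_smooth k hh.2).add ?_
  fun_prop

theorem AL3_h_convex (k : ℕ) {h : P → ℝ} (hh : LC h) :
    ConvexOn ℝ univ (fun y : P => AL3_h k h y - AL3_c k * (y.1 ^ 2 + y.2 ^ 2)) := by
  have h1 : (fun y : P => AL3_h k h y - AL3_c k * (y.1 ^ 2 + y.2 ^ 2)) = moll k h := by
    funext y
    simp only [AL3_h]
    ring
  rw [h1]
  exact moll_convexOn k hh.2 hh.1 convex_univ fun x _ => subset_univ _

theorem AL3_sel {φ f : P → ℝ} {p y : P} (h : IsArgmin f p y)
    (hu : ∀ y', IsArgmin f p y' → y' = y) : sel φ f p = φ y := by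
  have h1 : {z | IsArgmin f p z} = {y} := by
    ext z
    simp only [mem_ofPred_eq, mem_singleton_iff]
    exact ⟨fun hz => hu z hz, fun hz => hz ▸ h⟩
  rw [sel, h1, image_singleton, csSup_singleton]

/-- Comparison of the minimizers. -/
theorem AL3_compare {h : P → ℝ} {K : NNReal} (hK : LipschitzWith K h) (k : ℕ) {p yk : P}
    (hyk : IsArgmin (AL3_h k h) p yk) (z : P) :
    h yk - dot p yk ≤ h z - dot p z + (4 * K * AL3_c k + AL3_c k * (z.1 ^ 2 + z.2 ^ 2)) := by
  have h1 := hyk z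
  have h2 := abs_le.1 (moll_close k hK yk)
  have h3 := abs_le.1 (moll_close k hK z)
  have h4 : (K : ℝ) / ((k : ℝ) + 1) = 2 * K * AL3_c k := by
    unfold AL3_c
    field_simp
  rw [h4] at h2 h3
  have h5 : 0 ≤ AL3_c k * (yk.1 ^ 2 + yk.2 ^ 2) :=
    mul_nonneg (AL3_c_pos k).le (by positivity)
  simp only [AL3_h] at h1
  linarith [h2.1, h2.2, h3.1, h3.2]

theorem AL3_err_tendsto (K z : ℝ) :
    Tendsto (fun k => 4 * K * AL3_c k + AL3_c k * z) atTop (𝓝 0) := by
  have h1 := (AL3_c_tendsto.const_mul (4 * K)).add (AL3_c_tendsto.mul_const z)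
  simpa using h1

/-- Convergence when there is a unique minimizer. -/
theorem AL3_tendsto_of_exists {h : P → ℝ} (hh : LC h) {p y : P} (hy : IsArgmin h p y)
    (hu : ∀ y', IsArgmin h p y' → y' = y) (u : ℕ → P)
    (hu' : ∀ k, IsArgmin (AL3_h k h) p (u k)) : Tendsto u atTop (𝓝 y) := by
  obtain ⟨hc, K, hK⟩ := hh
  rw [Metric.tendsto_atTop]
  intro r hr
  have hcont : Continuous (fun z : P => h z - dot p z) := by
    have := hK.continuous
    unfold dot
    fun_prop
  -- a positive gap on the sphere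
  obtain ⟨m, hm, hgap⟩ : ∃ m > 0, ∀ z ∈ Metric.sphere y r,
      h y - dot p y + m ≤ h z - dot p z := by
    rcases (Metric.sphere y r).eq_empty_or_nonempty with he | hne
    · exact ⟨1, one_pos, fun z hz => by rw [he] at hz; exact hz.elim⟩
    · obtain ⟨z0, hz0, hmin⟩ := (isCompact_sphere y r).exists_isMinOn hne hcont.continuousOn
      have hpos : h y - dot p y < h z0 - dot p z0 := by
        by_contra hcon
        push Not at hcon
        have hz0' : IsArgmin h p z0 := fun w => hcon.trans (hy w)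
        have := hu z0 hz0'
        rw [this] at hz0
        simp at hz0
        exact hr.ne hz0
      refine ⟨(h z0 - dot p z0) - (h y - dot p y), by linarith, fun z hz => ?_⟩
      have := hmin hz
      simp only [mem_ofPred_eq] at this
      linarith
  -- the gap outside of the ball
  have hgap' : ∀ z, r ≤ ‖z - y‖ → h y - dot p y + m ≤ h z - dot p z := by
    intro z hz
    have hz0 : 0 < ‖z - y‖ := hr.trans_le hz
    set l := r / ‖z - y‖
    have hl0 : 0 < l := div_pos hr hz0
    have hl1 : l ≤ 1 := (div_le_one hz0).2 hz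
    have hw : (1 - l) • y + l • z ∈ Metric.sphere y r := by
      rw [mem_sphere_iff_norm]
      have : (1 - l) • y + l • z - y = l • (z - y) := by module
      rw [this, norm_smul, Real.norm_eq_abs, abs_of_pos hl0]
      exact div_mul_cancel₀ r hz0.ne'
    have h1 := hgap _ hw
    have h2 := hc.2 (mem_univ y) (mem_univ z) (sub_nonneg.2 hl1) hl0.le (by ring)
    have h3 : dot p ((1 - l) • y + l • z) = (1 - l) * dot p y + l * dot p z := by
      simp [dot]; ring
    rw [h3] at h1
    simp only [smul_eq_mul] at h2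
    have h4 := hy z
    nlinarith
  have hlim := AL3_err_tendsto K (y.1 ^ 2 + y.2 ^ 2)
  have hev := (hlim.eventually (gt_mem_nhds hm))
  rw [eventually_atTop] at hev
  obtain ⟨N, hN⟩ := hev
  refine ⟨N, fun k hk => ?_⟩
  rw [dist_eq_norm]
  by_contra hcon
  push Not at hcon
  have h1 := hgap' _ hcon
  have h2 := AL3_compare hK k (hu' k) y
  have h3 := hN k hk
  linarith

/-- Escape when there is no minimizer. -/
theorem AL3_escape {h : P → ℝ} (hh : LC h) {p : P} (hy : ∀ y, ¬ IsArgmin h p y) (u : ℕ → P)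
    (hu' : ∀ k, IsArgmin (AL3_h k h) p (u k)) (R : ℝ) : ∀ᶠ k in atTop, R < ‖u k‖ := by
  obtain ⟨hc, K, hK⟩ := hh
  by_contra hcon
  have hfr : ∃ᶠ k in atTop, ‖u k‖ ≤ R := by
    intro h1
    apply hcon
    filter_upwards [h1] with k hk
    exact not_le.1 hk
  have hcont : Continuous (fun z : P => h z - dot p z) := by
    have := hK.continuous
    unfold dot
    fun_prop
  obtain ⟨k0, hk0⟩ := hfr.exists
  obtain ⟨y, hyR, hmin⟩ := (isCompact_closedBall (0 : P) R).exists_isMinOn
    ⟨u k0, by simpa using hk0⟩ hcont.continuousOn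
  refine hy y fun z => ?_
  have hlim := AL3_err_tendsto K (z.1 ^ 2 + z.2 ^ 2)
  by_contra hlt
  push Not at hlt
  have hev := hlim.eventually (gt_mem_nhds (sub_pos.2 hlt))
  obtain ⟨k, hk1, hk2⟩ := (hfr.and_eventually hev).exists
  have h1 : h y - dot p y ≤ h (u k) - dot p (u k) := hmin (by simpa using hk1)
  have h2 := AL3_compare hK k (hu' k) z
  linarith

theorem AL3_bounded {h : P → ℝ} {K : NNReal} (hK : LipschitzWith K h) (k : ℕ)
    {p y : P} (hy : IsArgmin (AL3_h k h) p y) {R : ℝ} (hR : ‖y‖ ≤ R) : ‖p‖ ≤ K + R + 1 := by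
  have key : ∀ e : P, ‖e‖ ≤ 1 → dot p e ≤ K + AL3_c k * ((y.1 + e.1) ^ 2 + (y.2 + e.2) ^ 2 -
      (y.1 ^ 2 + y.2 ^ 2)) := by
    intro e he
    have h1 := hy (y + e)
    have h2 : dot p (y + e) = dot p y + dot p e := by simp [dot]; ring
    have h3 : |moll k h (y + e) - moll k h y| ≤ K * ‖e‖ := by
      have := (moll_lip k hK).dist_le_mul (y + e) y
      rwa [Real.dist_eq, dist_eq_norm, add_sub_cancel_left] at this
    have h4 := (abs_le.1 h3).2
    have h5 : (K : ℝ) * ‖e‖ ≤ K := by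
      have : (0 : ℝ) ≤ K := K.2
      nlinarith
    simp only [AL3_h, Prod.fst_add, Prod.snd_add] at h1
    linarith
  have hy1 : |y.1| ≤ R := by
    have : ‖y.1‖ ≤ ‖y‖ := norm_fst_le y
    rw [Real.norm_eq_abs] at this
    linarith
  have hy2 : |y.2| ≤ R := by
    have : ‖y.2‖ ≤ ‖y‖ := norm_snd_le y
    rw [Real.norm_eq_abs] at this
    linarith
  have hc0 := AL3_c_pos k
  have hc1 := AL3_c_le k
  have hy1' := abs_le.1 hy1
  have hy2' := abs_le.1 hy2
  have hR0 : 0 ≤ R := (norm_nonneg y).trans hR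
  have k1 := key (1, 0) (by rw [Prod.norm_def]; simp)
  have k2 := key (-1, 0) (by rw [Prod.norm_def]; simp)
  have k3 := key (0, 1) (by rw [Prod.norm_def]; simp)
  have k4 := key (0, -1) (by rw [Prod.norm_def]; simp)
  simp only [dot] at k1 k2 k3 k4
  rw [Prod.norm_def]
  apply max_le
  · rw [Real.norm_eq_abs, abs_le]
    constructor
    · have : AL3_c k * (1 - 2 * y.1) ≤ 1 / 2 * (1 + 2 * R) := by nlinarith
      nlinarith
    · have : AL3_c k * (1 + 2 * y.1) ≤ 1 / 2 * (1 + 2 * R) := by nlinarith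
      nlinarith
  · rw [Real.norm_eq_abs, abs_le]
    constructor
    · have : AL3_c k * (1 - 2 * y.2) ≤ 1 / 2 * (1 + 2 * R) := by nlinarith
      nlinarith
    · have : AL3_c k * (1 + 2 * y.2) ≤ 1 / 2 * (1 + 2 * R) := by nlinarith
      nlinarith

/-- The left hand side: convergence of the selections. -/
theorem AL3_left {φ h : P → ℝ} (hφ : Cc φ) (hh : LC h) :
    Integrable (sel φ h) ∧
      Tendsto (fun k => ∫ p, sel φ (AL3_h k h) p) atTop (𝓝 (∫ p, sel φ h p)) := by
  obtain ⟨K, hK⟩ := hh.2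
  have hφc : Continuous φ := hφ.1.continuous
  obtain ⟨R, hR⟩ : ∃ R, tsupport φ ⊆ Metric.closedBall 0 R :=
    hφ.2.isCompact.isBounded.subset_closedBall 0
  obtain ⟨M, hM⟩ : ∃ M, ∀ x, |φ x| ≤ M := by
    obtain ⟨M, hM⟩ := hφ.2.exists_bound_of_continuous hφc
    exact ⟨M, hM⟩
  have hM0 : 0 ≤ M := (abs_nonneg _).trans (hM 0)
  have hal := fun k => alexandrov_smooth hφ (AL3_h_smooth k hh) (AL3_c_pos k) (AL3_h_convex k hh)
  have hbound : ∀ k p, ‖sel φ (AL3_h k h) p‖ ≤
      (Metric.closedBall (0 : P) (K + R + 1)).indicator (fun _ => M) p := by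
    intro k p
    obtain ⟨y, hy, hyu⟩ := (hal k).1 p
    rw [AL3_sel hy hyu]
    by_cases h0 : φ y = 0
    · rw [h0, norm_zero]
      exact indicator_nonneg (fun _ _ => hM0) _
    · have hyR : ‖y‖ ≤ R := by
        have := hR (subset_tsupport φ h0)
        simpa using this
      have := AL3_bounded hK k hy hyR
      rw [indicator_of_mem (by simpa using this), Real.norm_eq_abs]
      exact hM y
  have hbi : Integrable ((Metric.closedBall (0 : P) (K + R + 1)).indicator (fun _ => M)) := by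
    rw [integrable_indicator_iff measurableSet_closedBall]
    exact integrableOn_const (isCompact_closedBall _ _).measure_lt_top.ne
  have hlim : ∀ᵐ p, Tendsto (fun k => sel φ (AL3_h k h) p) atTop (𝓝 (sel φ h p)) := by
    filter_upwards [ae_argmin_unique hh] with p hp
    choose u hu huu using fun k => (hal k).1 p
    have h1 : (fun k => sel φ (AL3_h k h) p) = fun k => φ (u k) := by
      funext k
      exact AL3_sel (hu k) (huu k)
    rw [h1]
    by_cases hex : ∃ y, IsArgmin h p y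
    · obtain ⟨y, hy⟩ := hex
      have hyu : ∀ y', IsArgmin h p y' → y' = y := fun y' hy' => hp y' y hy' hy
      rw [AL3_sel hy hyu]
      exact (hφc.tendsto y).comp (AL3_tendsto_of_exists hh hy hyu u hu)
    · push Not at hex
      have h2 : {z | IsArgmin h p z} = ∅ := by
        ext z
        simp only [mem_ofPred_eq, mem_empty_iff_false, iff_false]
        exact hex z
      rw [sel, h2, image_empty, Real.sSup_empty]
      apply tendsto_const_nhds.congr'
      filter_upwards [AL3_escape hh hex u hu R] with k hk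
      by_contra hne
      have := hR (subset_tsupport φ (Ne.symm hne))
      rw [mem_closedBall_zero_iff] at this
      linarith
  have hmeas : ∀ k, AEStronglyMeasurable (sel φ (AL3_h k h)) volume := fun k =>
    (hal k).2.1.aestronglyMeasurable
  refine ⟨?_, ?_⟩
  · refine hbi.mono' (aestronglyMeasurable_of_tendsto_ae atTop hmeas hlim) ?_
    filter_upwards [hlim] with p hp
    exact le_of_tendsto hp.norm (Eventually.of_forall fun k => hbound k p)
  · exact tendsto_integral_of_dominated_convergence _ hmeas hbi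
      (fun k => Eventually.of_forall fun p => hbound k p) hlim

theorem AL3_lin {F1 F2 F3 : P → ℝ} (i1 : Integrable F1) (i2 : Integrable F2)
    (i3 : Integrable F3) (a b c : ℝ) : a * (∫ x, F1 x) + b * (∫ x, F2 x) + c * (∫ x, F3 x) =
      ∫ x, (a * F1 x + b * F2 x + c * F3 x) := by
  have i4 : Integrable (fun x => a * F1 x + b * F2 x) := (i1.const_mul a).add (i2.const_mul b)
  rw [integral_add i4 (i3.const_mul c), integral_add (i1.const_mul a) (i2.const_mul b),
    integral_const_mul, integral_const_mul, integral_const_mul]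

/-- The right hand side. -/
theorem AL3_right {φ h : P → ℝ} (hφ : Cc φ) (hh : LC h) :
    Tendsto (fun k => ∫ x, φ x * (d1 (d1 (AL3_h k h)) x * d2 (d2 (AL3_h k h)) x -
      (d1 (d2 (AL3_h k h)) x) ^ 2)) atTop (𝓝 (B φ h h)) := by
  obtain ⟨K, hK⟩ := hh.2
  have hφc : Continuous φ := hφ.1.continuous
  have hφi : Integrable φ := hφc.integrable_of_hasCompactSupport hφ.2
  -- expansion of the determinant
  have hexp : ∀ k, ∫ x, φ x * (d1 (d1 (AL3_h k h)) x * d2 (d2 (AL3_h k h)) x -
      (d1 (d2 (AL3_h k h)) x) ^ 2) = B φ (moll k h) (moll k h) +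
        2 * AL3_c k * (∫ x, moll k h x * (d1 (d1 φ) x + d2 (d2 φ) x)) +
        (2 * AL3_c k) ^ 2 * ∫ x, φ x := by
    intro k
    have hm := moll_smooth k hh.2
    have hmd := AL3_smooth_diff hm
    have hm1 := AL3_smooth_d1 hm
    have hm2 := AL3_smooth_d2 hm
    have hq : ∀ c : ℝ, Differentiable ℝ (fun y : P => c * (y.1 ^ 2 + y.2 ^ 2)) := by
      intro c; fun_prop
    have e11 : d1 (d1 (AL3_h k h)) = fun x => d1 (d1 (moll k h)) x + 2 * AL3_c k := by
      have : d1 (AL3_h k h) = fun x => d1 (moll k h) x + 2 * AL3_c k * x.1 := by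
        unfold AL3_h
        rw [AL3_d1_add hmd (hq _), AL3_q1]
      rw [this, AL3_d1_add (AL3_smooth_diff hm1) (by fun_prop), AL3_q11]
    have e22 : d2 (d2 (AL3_h k h)) = fun x => d2 (d2 (moll k h)) x + 2 * AL3_c k := by
      have : d2 (AL3_h k h) = fun x => d2 (moll k h) x + 2 * AL3_c k * x.2 := by
        unfold AL3_h
        rw [AL3_d2_add hmd (hq _), AL3_q2]
      rw [this, AL3_d2_add (AL3_smooth_diff hm2) (by fun_prop), AL3_q22]
    have e12 : d1 (d2 (AL3_h k h)) = fun x => d1 (d2 (moll k h)) x := by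
      have : d2 (AL3_h k h) = fun x => d2 (moll k h) x + 2 * AL3_c k * x.2 := by
        unfold AL3_h
        rw [AL3_d2_add hmd (hq _), AL3_q2]
      rw [this, AL3_d1_add (AL3_smooth_diff hm2) (by fun_prop), AL3_q12]
      simp
    -- the Laplacian term
    have hB1 := B_smooth hφ hm hm
    have hqs : ContDiff ℝ ∞ (fun y : P => (1 / 2 : ℝ) * (y.1 ^ 2 + y.2 ^ 2)) := by fun_prop
    have hB2 := B_smooth hφ hm hqs
    have hB3 := B_lip_smooth hφ ⟨K, moll_lip k hK⟩ hqs (u := moll k h)
    have q11 : d1 (d1 (fun y : P => (1 / 2 : ℝ) * (y.1 ^ 2 + y.2 ^ 2))) = fun _ => 1 := by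
      rw [AL3_q1, AL3_q11]; norm_num
    have q22 : d2 (d2 (fun y : P => (1 / 2 : ℝ) * (y.1 ^ 2 + y.2 ^ 2))) = fun _ => 1 := by
      rw [AL3_q2, AL3_q22]; norm_num
    have q12 : d1 (d2 (fun y : P => (1 / 2 : ℝ) * (y.1 ^ 2 + y.2 ^ 2))) = fun _ => 0 := by
      rw [AL3_q2, AL3_q12]
    rw [hB3, q11, q22, q12] at hB2
    have c11 := (AL3_smooth_d1 hm1).continuous
    have c22 := (AL3_smooth_d2 hm2).continuous
    have c12 := (AL3_smooth_d1 hm2).continuous
    have i1 : Integrable (fun x => φ x * (d1 (d1 (moll k h)) x * d2 (d2 (moll k h)) x +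
        d2 (d2 (moll k h)) x * d1 (d1 (moll k h)) x -
        2 * (d1 (d2 (moll k h)) x * d1 (d2 (moll k h)) x))) := by
      apply Continuous.integrable_of_hasCompactSupport (by fun_prop)
      exact hφ.2.mul_right
    have i2 : Integrable (fun x => φ x * (d1 (d1 (moll k h)) x * 1 + d2 (d2 (moll k h)) x * 1 -
        2 * (d1 (d2 (moll k h)) x * 0))) := by
      apply Continuous.integrable_of_hasCompactSupport (by fun_prop)
      exact hφ.2.mul_right
    rw [hB1, e11, e22, e12]
    have hB2' : ∫ x, moll k h x * (d1 (d1 φ) x + d2 (d2 φ) x) =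
        ∫ x, φ x * (d1 (d1 (moll k h)) x * 1 + d2 (d2 (moll k h)) x * 1 -
        2 * (d1 (d2 (moll k h)) x * 0)) := by
      have e1 : ∀ x, moll k h x * (d1 (d1 φ) x * 1 + d2 (d2 φ) x * 1 - 2 * (d1 (d2 φ) x * 0)) =
          moll k h x * (d1 (d1 φ) x + d2 (d2 φ) x) := fun x => by ring
      simp only [e1] at hB2
      linarith
    rw [hB2', AL3_lin i1 i2 hφi]
    apply integral_congr_ae
    filter_upwards with x
    ring
  simp only [hexp]
  have t1 := (tendsto_B_moll hφ hh.2 hh.2).1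
  have t3 : Tendsto (fun k => (2 * AL3_c k) ^ 2 * ∫ x, φ x) atTop (𝓝 0) := by
    have := ((AL3_c_tendsto.const_mul 2).pow 2).mul_const (∫ x, φ x)
    simpa using this
  have hΔc : Continuous (fun x => d1 (d1 φ) x + d2 (d2 φ) x) :=
    (AL3_smooth_d1 (AL3_smooth_d1 hφ.1)).continuous.add
      (AL3_smooth_d2 (AL3_smooth_d2 hφ.1)).continuous
  have hd1s : ∀ f : P → ℝ, HasCompactSupport f → HasCompactSupport (d1 f) := by
    intro f hf
    refine hf.mono' fun x hx => ?_
    by_contra hn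
    apply hx
    have h1 : f =ᶠ[𝓝 x] fun _ => (0 : ℝ) := by
      have := (isClosed_tsupport f).isOpen_compl.mem_nhds hn
      filter_upwards [this] with z hz
      exact image_eq_zero_of_notMem_tsupport hz
    unfold d1
    rw [h1.lineDeriv_eq]
    simp [lineDeriv]
  have hd2s : ∀ f : P → ℝ, HasCompactSupport f → HasCompactSupport (d2 f) := by
    intro f hf
    refine hf.mono' fun x hx => ?_
    by_contra hn
    apply hx
    have h1 : f =ᶠ[𝓝 x] fun _ => (0 : ℝ) := by
      have := (isClosed_tsupport f).isOpen_compl.mem_nhds hn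
      filter_upwards [this] with z hz
      exact image_eq_zero_of_notMem_tsupport hz
    unfold d2
    rw [h1.lineDeriv_eq]
    simp [lineDeriv]
  have hΔs : HasCompactSupport (fun x => d1 (d1 φ) x + d2 (d2 φ) x) :=
    (hd1s _ (hd1s _ hφ.2)).add (hd2s _ (hd2s _ hφ.2))
  have t2 : Tendsto (fun k => 2 * AL3_c k * (∫ x, moll k h x * (d1 (d1 φ) x + d2 (d2 φ) x)))
      atTop (𝓝 0) := by
    have hhc : Continuous h := hK.continuous
    have hgi : Integrable (fun x => (|h x| + K) * |d1 (d1 φ) x + d2 (d2 φ) x|) := by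
      apply Continuous.integrable_of_hasCompactSupport (by fun_prop)
      exact (hΔs.comp_left (g := fun t : ℝ => |t|) (by simp)).mul_left
    have hb : ∀ k, |∫ x, moll k h x * (d1 (d1 φ) x + d2 (d2 φ) x)| ≤
        ∫ x, (|h x| + K) * |d1 (d1 φ) x + d2 (d2 φ) x| := by
      intro k
      have := norm_integral_le_of_norm_le (f := fun x => moll k h x * (d1 (d1 φ) x + d2 (d2 φ) x))
        hgi (Eventually.of_forall fun x => ?_)
      · simpa using this
      · rw [norm_mul, Real.norm_eq_abs, Real.norm_eq_abs]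
        apply mul_le_mul_of_nonneg_right _ (abs_nonneg _)
        have h1 := moll_close k hK x
        have h2 : (K : ℝ) / ((k : ℝ) + 1) ≤ K := by
          apply div_le_self K.2
          have : (0 : ℝ) ≤ k := Nat.cast_nonneg k
          linarith
        have h3 : |moll k h x| ≤ |moll k h x - h x| + |h x| := by
          have := abs_add_le (moll k h x - h x) (h x)
          simpa using this
        linarith
    set C := ∫ x, (|h x| + K) * |d1 (d1 φ) x + d2 (d2 φ) x|
    have hC : Tendsto (fun k => 2 * AL3_c k * C) atTop (𝓝 0) := by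
      have := (AL3_c_tendsto.const_mul 2).mul_const C
      simpa using this
    refine squeeze_zero_norm (fun k => ?_) hC
    rw [norm_mul, Real.norm_eq_abs, Real.norm_eq_abs,
      abs_of_pos (by have := AL3_c_pos k; linarith : 0 < 2 * AL3_c k)]
    exact mul_le_mul_of_nonneg_left (hb k) (by have := AL3_c_pos k; linarith)
  have := (t1.add t2).add t3
  simpa using this

theorem sel_integrable {φ h : P → ℝ} (hφ : Cc φ) (hh : LC h) : Integrable (sel φ h) :=
  (AL3_left hφ hh).1

theorem alexandrov {φ h : P → ℝ} (hφ : Cc φ) (hh : LC h) : ∫ p, sel φ h p = B φ h h := by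
  have h1 := (AL3_left hφ hh).2
  have h2 := AL3_right hφ hh
  have h3 : ∀ k, ∫ p, sel φ (AL3_h k h) p = ∫ x, φ x * (d1 (d1 (AL3_h k h)) x *
      d2 (d2 (AL3_h k h)) x - (d1 (d2 (AL3_h k h)) x) ^ 2) := fun k =>
    (alexandrov_smooth hφ (AL3_h_smooth k hh) (AL3_c_pos k) (AL3_h_convex k hh)).2.2
  simp only [h3] at h1
  exact tendsto_nhds_unique h1 h2

end Pool.Agent.helper41.Sch
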